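import Mathlib

/-!
Bessel inequality on the circle for an absolutely convergent power series.
-/

open Complex Metric Set Filter Topology MeasureTheory

namespace Pool.Agent.Helper60.DZJ

theorem exp_orth (j k : ℕ) :
    ∫ θ in (-Real.pi)..Real.pi, exp (((j : ℂ) - (k : ℂ)) * I * (θ : ℂ)) =
      if j = k then (2 * Real.pi : ℂ) else 0 := by
  split_ifs with h
  · subst h
    simp
    ring
  · have hc : ((j : ℂ) - (k : ℂ)) * I ≠ 0 := by
      refine mul_ne_zero (sub_ne_zero.2 ?_) I_ne_zero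
      exact_mod_cast h
    rw [integral_exp_mul_complex hc]
    have e1 : exp (((j : ℂ) - (k : ℂ)) * I * (Real.pi : ℝ)) =
        exp (((j : ℂ) - (k : ℂ)) * I * ((-Real.pi : ℝ) : ℂ)) := by
      have e2 : ((j : ℂ) - (k : ℂ)) * I * (Real.pi : ℝ) =
          ((j : ℂ) - (k : ℂ)) * I * ((-Real.pi : ℝ) : ℂ) + ((j : ℤ) - (k : ℤ) : ℤ) * (2 * Real.pi * I) := by
        push_cast
        ring
      rw [e2, Complex.exp_add, Complex.exp_int_mul_two_pi_mul_I, mul_one]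
    rw [e1, sub_self, zero_div]

theorem pi_lt : -Real.pi < Real.pi := by linarith [Real.pi_pos]

theorem fourier_neg_mul (k : ℕ) (θ : ℝ) :
    (fourier (-(k : ℤ)) (θ : AddCircle (Real.pi - -Real.pi)) : ℂ) = exp (-((k : ℂ) * I * θ)) := by
  rw [fourier_coe_apply]
  congr 1
  have hpi : (Real.pi : ℂ) ≠ 0 := by exact_mod_cast Real.pi_ne_zero
  push_cast
  have : (Real.pi : ℂ) - -(Real.pi : ℂ) ≠ 0 := by
    ring_nf
    exact mul_ne_zero hpi two_ne_zero
  field_simp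
  ring

theorem coeff_eq (c : ℕ → ℂ) (hs : Summable fun k => ‖c k‖) (g : ℝ → ℂ)
    (hg : ∀ θ : ℝ, HasSum (fun k : ℕ => c k * exp ((k : ℂ) * I * θ)) (g θ)) (k : ℕ) :
    fourierCoeffOn pi_lt g (k : ℤ) = c k := by
  rw [fourierCoeffOn_eq_integral]
  have h1 : ∀ θ : ℝ, HasSum (fun j : ℕ => c j * exp (((j : ℂ) - (k : ℂ)) * I * (θ : ℂ)))
      (fourier (-(k : ℤ)) (θ : AddCircle (Real.pi - -Real.pi)) • g θ) := by
    intro θ
    have h2 := (hg θ).mul_left (exp (-((k : ℂ) * I * θ)))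
    rw [fourier_neg_mul, smul_eq_mul]
    have h6 : (fun j : ℕ => c j * exp (((j : ℂ) - (k : ℂ)) * I * (θ : ℂ))) =
        fun j : ℕ => exp (-((k : ℂ) * I * θ)) * (c j * exp ((j : ℂ) * I * θ)) := by
      funext j
      rw [show ((j : ℂ) - (k : ℂ)) * I * (θ : ℂ) = -((k : ℂ) * I * θ) + (j : ℂ) * I * θ by ring,
        Complex.exp_add]
      ring
    rw [h6]
    exact h2
  have hn : ∀ (j : ℕ) (θ : ℝ), ‖c j * exp (((j : ℂ) - (k : ℂ)) * I * (θ : ℂ))‖ = ‖c j‖ := by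
    intro j θ
    rw [norm_mul]
    have : ((j : ℂ) - (k : ℂ)) * I * (θ : ℂ) = (((j : ℝ) - (k : ℝ)) * θ : ℝ) * I := by
      push_cast
      ring
    rw [this, Complex.norm_exp_ofReal_mul_I, mul_one]
  have h3 : HasSum (fun j : ℕ => ∫ θ in Ioc (-Real.pi) Real.pi,
        c j * exp (((j : ℂ) - (k : ℂ)) * I * (θ : ℂ)))
      (∫ θ in Ioc (-Real.pi) Real.pi, ∑' j : ℕ, c j * exp (((j : ℂ) - (k : ℂ)) * I * (θ : ℂ))) := by
    refine hasSum_integral_of_summable_integral_norm (fun j => ?_) ?_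
    · have : Continuous fun θ : ℝ => c j * exp (((j : ℂ) - (k : ℂ)) * I * (θ : ℂ)) := by fun_prop
      exact (this.integrableOn_Icc (a := -Real.pi) (b := Real.pi)).mono_set Ioc_subset_Icc_self
    · simp_rw [hn]
      simp only [integral_const, smul_eq_mul]
      exact hs.mul_left _
  rw [intervalIntegral.integral_of_le pi_lt.le]
  have h4 : (∫ θ in Ioc (-Real.pi) Real.pi, fourier (-(k : ℤ)) (θ : AddCircle (Real.pi - -Real.pi)) • g θ) =
      2 * Real.pi * c k := by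
    have h5 : (∫ θ in Ioc (-Real.pi) Real.pi, fourier (-(k : ℤ)) (θ : AddCircle (Real.pi - -Real.pi)) • g θ) =
      ∫ θ in Ioc (-Real.pi) Real.pi, ∑' j : ℕ, c j * exp (((j : ℂ) - (k : ℂ)) * I * (θ : ℂ)) := by
      refine integral_congr_ae (Eventually.of_forall fun θ => ?_)
      exact (h1 θ).tsum_eq.symm
    rw [h5, ← h3.tsum_eq]
    have h6 : ∀ j : ℕ, (∫ θ in Ioc (-Real.pi) Real.pi,
        c j * exp (((j : ℂ) - (k : ℂ)) * I * (θ : ℂ))) = if j = k then 2 * Real.pi * c k else 0 := by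
      intro j
      rw [integral_const_mul, ← intervalIntegral.integral_of_le pi_lt.le, exp_orth]
      split_ifs with h
      · rw [h]; ring
      · simp
    simp_rw [h6]
    rw [tsum_ite_eq]
  rw [h4]
  have hpi : (Real.pi : ℂ) ≠ 0 := by exact_mod_cast Real.pi_ne_zero
  rw [Complex.real_smul]
  push_cast
  have : (Real.pi : ℂ) - -(Real.pi : ℂ) ≠ 0 := by
    ring_nf
    exact mul_ne_zero hpi two_ne_zero
  field_simp
  ring

theorem bessel_circle (c : ℕ → ℂ) (hs : Summable fun k => ‖c k‖) (g : ℝ → ℂ)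
    (hg : ∀ θ : ℝ, HasSum (fun k : ℕ => c k * exp ((k : ℂ) * I * θ)) (g θ)) (n : ℕ) :
    2 * Real.pi * ∑ k ∈ Finset.range n, ‖c k‖ ^ 2 ≤ ∫ θ in (-Real.pi)..Real.pi, ‖g θ‖ ^ 2 := by
  have hn : ∀ (j : ℕ) (θ : ℝ), ‖c j * exp ((j : ℂ) * I * (θ : ℂ))‖ = ‖c j‖ := by
    intro j θ
    rw [norm_mul]
    have : (j : ℂ) * I * (θ : ℂ) = ((j : ℝ) * θ : ℝ) * I := by
      push_cast
      ring
    rw [this, Complex.norm_exp_ofReal_mul_I, mul_one]
  have hgt : g = fun θ : ℝ => ∑' k : ℕ, c k * exp ((k : ℂ) * I * θ) := by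
    funext θ
    exact (hg θ).tsum_eq.symm
  have hcont : Continuous g := by
    rw [hgt]
    refine continuous_tsum (fun j => by fun_prop) hs (fun j θ => (hn j θ).le)
  have hb : ∀ θ : ℝ, ‖g θ‖ ≤ ∑' k, ‖c k‖ := by
    intro θ
    rw [hgt]
    refine (norm_tsum_le_tsum_norm ?_).trans_eq ?_
    · simp_rw [hn]; exact hs
    · simp_rw [hn]
  have hL2 : MemLp g 2 (volume.restrict (Ioc (-Real.pi) Real.pi)) :=
    MemLp.of_bound hcont.aestronglyMeasurable (∑' k, ‖c k‖) (Eventually.of_forall hb)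
  have hP := hasSum_sq_fourierCoeffOn pi_lt hL2
  have hle : ∑ k ∈ Finset.range n, ‖c k‖ ^ 2 ≤
      (Real.pi - -Real.pi)⁻¹ • ∫ θ in (-Real.pi)..Real.pi, ‖g θ‖ ^ 2 := by
    rw [← hP.tsum_eq]
    have h1 : ∑ k ∈ Finset.range n, ‖c k‖ ^ 2 =
        ∑ i ∈ (Finset.range n).map Nat.castEmbedding, ‖fourierCoeffOn pi_lt g i‖ ^ 2 := by
      rw [Finset.sum_map]
      refine Finset.sum_congr rfl fun k _ => ?_
      simp only [Nat.castEmbedding_apply]
      rw [coeff_eq c hs g hg k]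
    rw [h1]
    exact hP.summable.sum_le_tsum _ (fun i _ => by positivity)
  have hpos : (0 : ℝ) < Real.pi - -Real.pi := by linarith [Real.pi_pos]
  rw [smul_eq_mul, inv_mul_eq_div, le_div_iff₀ hpos] at hle
  linarith

end Pool.Agent.Helper60.DZJ
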