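import Pool.Agent.Helper26.DZDefs
import Pool.Agent.Helper60.DZJ.J1

/-!
Packet J of MP_8199af_an: Bessel inequality for the Dirichlet integral.
-/

open Complex Metric Set Filter Topology MeasureTheory

namespace Pool.Agent.Helper60.DZJ

open Pool.Agent.Helper26.DZ

theorem polar_mem {r : ℝ} (hr : r ∈ Ioo (0 : ℝ) 1) (θ : ℝ) :
    (r : ℂ) * exp (θ * I) ∈ ball (0 : ℂ) 1 := by
  rw [mem_ball_zero_iff, norm_mul, Complex.norm_exp_ofReal_mul_I, mul_one, Complex.norm_real,
    Real.norm_eq_abs, abs_of_pos hr.1]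
  exact hr.2

theorem polar_lower (f : ℂ → ℝ) (hf0 : ∀ w, 0 ≤ f w) (hcont : ContinuousOn f (ball 0 1))
    (hi : IntegrableOn f (ball 0 1)) (n : ℕ) (b : ℕ → ℝ) (hb0 : ∀ k, 0 ≤ b k)
    (hB : ∀ r ∈ Ioo (0 : ℝ) 1, 2 * Real.pi * ∑ k ∈ Finset.range n, b k * r ^ (2 * k) ≤
      ∫ θ in (-Real.pi)..Real.pi, f ((r : ℂ) * exp (θ * I))) :
    Real.pi * ∑ k ∈ Finset.range n, b k / ((k : ℝ) + 1) ≤ ∫ w in ball (0 : ℂ) 1, f w := by
  set F : ℂ → ENNReal := indicator (ball (0 : ℂ) 1) (fun w => ENNReal.ofReal (f w)) with hF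
  set G : ℝ × ℝ → ENNReal := fun p => ENNReal.ofReal p.1 * ENNReal.ofReal (f ((p.1 : ℂ) * exp (p.2 * I)))
    with hG
  have hM0 : 0 ≤ ∫ w in ball (0 : ℂ) 1, f w := integral_nonneg fun w => hf0 w
  have h1 : ENNReal.ofReal (∫ w in ball (0 : ℂ) 1, f w) = ∫⁻ w, F w := by
    rw [hF, lintegral_indicator measurableSet_ball,
      ofReal_integral_eq_lintegral_ofReal hi (Eventually.of_forall hf0)]
  have h2 : ∫⁻ w, F w = ∫⁻ p in polarCoord.target,
      ENNReal.ofReal p.1 • F (Complex.polarCoord.symm p) :=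
    (Complex.lintegral_comp_polarCoord_symm F).symm
  have hsub : Ioo (0 : ℝ) 1 ×ˢ Ioo (-Real.pi) Real.pi ⊆ polarCoord.target := by
    rintro ⟨r, θ⟩ ⟨hr, hθ⟩
    rw [polarCoord_target]
    exact ⟨hr.1, hθ⟩
  have h3 : ∫⁻ p in Ioo (0 : ℝ) 1 ×ˢ Ioo (-Real.pi) Real.pi, G p ≤ ∫⁻ w, F w := by
    rw [h2]
    refine le_trans (le_of_eq ?_) (lintegral_mono_set hsub)
    refine setLIntegral_congr_fun (measurableSet_Ioo.prod measurableSet_Ioo) ?_
    rintro ⟨r, θ⟩ ⟨hr, hθ⟩
    have e : Complex.polarCoord.symm (r, θ) = (r : ℂ) * exp (θ * I) := by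
      rw [Complex.polarCoord_symm_apply, Complex.exp_mul_I]
      push_cast
      ring
    have hm := polar_mem hr θ
    simp only [hG, hF, smul_eq_mul]
    rw [e, indicator_of_mem hm]
  have hGm : AEMeasurable G ((volume : Measure (ℝ × ℝ)).restrict
      (Ioo (0 : ℝ) 1 ×ˢ Ioo (-Real.pi) Real.pi)) := by
    refine ContinuousOn.aemeasurable ?_ (measurableSet_Ioo.prod measurableSet_Ioo)
    have c1 : ContinuousOn (fun p : ℝ × ℝ => f ((p.1 : ℂ) * exp (p.2 * I)))
        (Ioo (0 : ℝ) 1 ×ˢ Ioo (-Real.pi) Real.pi) := by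
      refine hcont.comp (Continuous.continuousOn (by fun_prop)) ?_
      rintro ⟨r, θ⟩ ⟨hr, hθ⟩
      exact polar_mem hr θ
    have c2 : ContinuousOn (fun p : ℝ × ℝ => ENNReal.ofReal (p.1 * f ((p.1 : ℂ) * exp (p.2 * I))))
        (Ioo (0 : ℝ) 1 ×ˢ Ioo (-Real.pi) Real.pi) :=
      ENNReal.continuous_ofReal.comp_continuousOn (continuous_fst.continuousOn.mul c1)
    refine c2.congr ?_
    rintro ⟨r, θ⟩ ⟨hr, hθ⟩
    simp only [hG]
    rw [ENNReal.ofReal_mul hr.1.le]
  have h4 : ∫⁻ p in Ioo (0 : ℝ) 1 ×ˢ Ioo (-Real.pi) Real.pi, G p =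
      ∫⁻ r in Ioo (0 : ℝ) 1, ∫⁻ θ in Ioo (-Real.pi) Real.pi, G (r, θ) := by
    rw [Measure.volume_eq_prod, ← Measure.prod_restrict]
    rw [Measure.volume_eq_prod, ← Measure.prod_restrict] at hGm
    exact lintegral_prod G hGm
  have h5 : ∀ r ∈ Ioo (0 : ℝ) 1,
      ENNReal.ofReal (2 * Real.pi * ∑ k ∈ Finset.range n, b k * r ^ (2 * k + 1)) ≤
        ∫⁻ θ in Ioo (-Real.pi) Real.pi, G (r, θ) := by
    intro r hr
    have c1 : Continuous fun θ : ℝ => f ((r : ℂ) * exp (θ * I)) := by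
      have : Continuous fun θ : ℝ => (⟨(r : ℂ) * exp (θ * I), polar_mem hr θ⟩ : ball (0 : ℂ) 1) := by
        refine Continuous.subtype_mk (by fun_prop) _
      exact (continuousOn_iff_continuous_domRestrict.1 hcont).comp this
    have hint : Integrable (fun θ : ℝ => r * f ((r : ℂ) * exp (θ * I)))
        (volume.restrict (Ioo (-Real.pi) Real.pi)) :=
      ((continuous_const.mul c1).integrableOn_Icc (a := -Real.pi) (b := Real.pi)).mono_set
        Ioo_subset_Icc_self
    have e1 : ∫⁻ θ in Ioo (-Real.pi) Real.pi, G (r, θ) =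
        ENNReal.ofReal (∫ θ in Ioo (-Real.pi) Real.pi, r * f ((r : ℂ) * exp (θ * I))) := by
      rw [ofReal_integral_eq_lintegral_ofReal hint
        (Eventually.of_forall fun θ => mul_nonneg hr.1.le (hf0 _))]
      refine lintegral_congr fun θ => ?_
      simp only [hG]
      rw [ENNReal.ofReal_mul hr.1.le]
    rw [e1]
    refine ENNReal.ofReal_le_ofReal ?_
    rw [integral_const_mul, ← integral_Ioc_eq_integral_Ioo, ← intervalIntegral.integral_of_le pi_lt.le]
    have := mul_le_mul_of_nonneg_left (hB r hr) hr.1.le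
    refine le_trans (le_of_eq ?_) this
    rw [Finset.mul_sum, Finset.mul_sum, Finset.mul_sum]
    refine Finset.sum_congr rfl fun k _ => ?_
    ring
  have h6 : ENNReal.ofReal (Real.pi * ∑ k ∈ Finset.range n, b k / ((k : ℝ) + 1)) ≤
      ∫⁻ r in Ioo (0 : ℝ) 1,
        ENNReal.ofReal (2 * Real.pi * ∑ k ∈ Finset.range n, b k * r ^ (2 * k + 1)) := by
    have hint : Integrable (fun r : ℝ => 2 * Real.pi * ∑ k ∈ Finset.range n, b k * r ^ (2 * k + 1))
        (volume.restrict (Ioo (0 : ℝ) 1)) := by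
      have : Continuous (fun r : ℝ => 2 * Real.pi * ∑ k ∈ Finset.range n, b k * r ^ (2 * k + 1)) := by
        fun_prop
      exact (this.integrableOn_Icc (a := 0) (b := 1)).mono_set Ioo_subset_Icc_self
    have e2 : Real.pi * ∑ k ∈ Finset.range n, b k / ((k : ℝ) + 1) =
        ∫ r in Ioo (0 : ℝ) 1, 2 * Real.pi * ∑ k ∈ Finset.range n, b k * r ^ (2 * k + 1) := by
      rw [integral_const_mul, ← integral_Ioc_eq_integral_Ioo,
        ← intervalIntegral.integral_of_le zero_le_one,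
        intervalIntegral.integral_finsetSum]
      · rw [Finset.mul_sum, Finset.mul_sum]
        refine Finset.sum_congr rfl fun k _ => ?_
        rw [intervalIntegral.integral_const_mul, integral_pow]
        have : (2 * (k : ℝ) + 2) = 2 * ((k : ℝ) + 1) := by ring
        push_cast
        rw [show (2 * (k : ℝ) + 1 + 1) = 2 * ((k : ℝ) + 1) by ring]
        have hk : (k : ℝ) + 1 ≠ 0 := by positivity
        field_simp
        simp
      · intro k _
        exact (Continuous.intervalIntegrable (by fun_prop) _ _)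
    rw [e2]
    rw [ofReal_integral_eq_lintegral_ofReal hint]
    refine (ae_restrict_iff' measurableSet_Ioo).2 (Eventually.of_forall fun r hr => ?_)
    have : 0 ≤ ∑ k ∈ Finset.range n, b k * r ^ (2 * k + 1) :=
      Finset.sum_nonneg fun k _ => mul_nonneg (hb0 k) (pow_nonneg hr.1.le _)
    exact mul_nonneg (by positivity) this
  have h7 : ENNReal.ofReal (Real.pi * ∑ k ∈ Finset.range n, b k / ((k : ℝ) + 1)) ≤
      ENNReal.ofReal (∫ w in ball (0 : ℂ) 1, f w) := by
    rw [h1]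
    refine h6.trans (le_trans ?_ h3)
    rw [h4]
    exact setLIntegral_mono' measurableSet_Ioo h5
  exact (ENNReal.ofReal_le_ofReal_iff hM0).1 h7

theorem stmtJ : StmtJ := by
  intro u hu hint
  set a : ℕ → ℂ := fun k => ((Nat.factorial k : ℂ))⁻¹ * iteratedDeriv k u 0 with ha
  have hu' : DifferentiableOn ℂ (deriv u) (ball 0 1) := hu.deriv isOpen_ball
  have s1 : ∀ w ∈ ball (0 : ℂ) 1, HasSum (fun k => a k * w ^ k) (u w) := by
    intro w hw
    have h := Complex.hasSum_taylorSeries_on_ball hu hw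
    have e : (fun k => a k * w ^ k) =
        fun n : ℕ => ((Nat.factorial n : ℂ))⁻¹ • (w - 0) ^ n • iteratedDeriv n u 0 := by
      funext k
      simp only [ha, smul_eq_mul, sub_zero]
      ring
    rw [e]
    exact h
  set b : ℕ → ℂ := fun k => ((k : ℂ) + 1) * a (k + 1) with hb
  have s2 : ∀ w ∈ ball (0 : ℂ) 1, HasSum (fun k => b k * w ^ k) (deriv u w) := by
    intro w hw
    have h := Complex.hasSum_taylorSeries_on_ball hu' hw
    have e : (fun k => b k * w ^ k) =
        fun n : ℕ => ((Nat.factorial n : ℂ))⁻¹ • (w - 0) ^ n • iteratedDeriv n (deriv u) 0 := by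
      funext k
      simp only [hb, ha, smul_eq_mul, sub_zero]
      rw [← iteratedDeriv_succ', Nat.factorial_succ]
      have : (Nat.factorial k : ℂ) ≠ 0 := by exact_mod_cast Nat.factorial_ne_zero k
      have h1 : (k : ℂ) + 1 ≠ 0 := by exact_mod_cast Nat.succ_ne_zero k
      push_cast
      field_simp
    rw [e]
    exact h
  refine ⟨a, s1, ?_⟩
  have hB : ∀ n : ℕ, ∀ r ∈ Ioo (0 : ℝ) 1,
      2 * Real.pi * ∑ k ∈ Finset.range n, ‖b k‖ ^ 2 * r ^ (2 * k) ≤
      ∫ θ in (-Real.pi)..Real.pi, ‖deriv u ((r : ℂ) * exp (θ * I))‖ ^ 2 := by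
    intro n r hr
    have hrm : (r : ℂ) ∈ ball (0 : ℂ) 1 := by
      rw [mem_ball_zero_iff, Complex.norm_real, Real.norm_eq_abs, abs_of_pos hr.1]
      exact hr.2
    have hsum : Summable fun k => ‖b k * (r : ℂ) ^ k‖ := (s2 _ hrm).summable.norm
    have hg : ∀ θ : ℝ, HasSum (fun k : ℕ => (b k * (r : ℂ) ^ k) * exp ((k : ℂ) * I * θ))
        (deriv u ((r : ℂ) * exp (θ * I))) := by
      intro θ
      have h := s2 _ (polar_mem hr θ)
      have e : (fun k : ℕ => (b k * (r : ℂ) ^ k) * exp ((k : ℂ) * I * θ)) =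
          fun k => b k * ((r : ℂ) * exp (θ * I)) ^ k := by
        funext k
        rw [mul_pow, ← Complex.exp_nat_mul]
        rw [show (k : ℂ) * I * θ = (k : ℂ) * (θ * I) by ring]
        ring
      rw [e]
      exact h
    have h := bessel_circle _ hsum _ hg n
    refine le_trans (le_of_eq ?_) h
    congr 1
    refine Finset.sum_congr rfl fun k _ => ?_
    rw [norm_mul (b k), norm_pow, Complex.norm_real, Real.norm_eq_abs, abs_of_pos hr.1]
    ring
  have hcont : ContinuousOn (fun w => ‖deriv u w‖ ^ 2) (ball 0 1) :=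
    (hu'.continuousOn.norm).pow 2
  have hle : ∀ n : ℕ, ∑ k ∈ Finset.range n, ((k : ℝ) + 1) * ‖a (k + 1)‖ ^ 2 ≤
      (∫ w in ball (0 : ℂ) 1, ‖deriv u w‖ ^ 2) / Real.pi := by
    intro n
    have h := polar_lower (fun w => ‖deriv u w‖ ^ 2) (fun w => by positivity) hcont hint n
      (fun k => ‖b k‖ ^ 2) (fun k => by positivity) (hB n)
    rw [le_div_iff₀ Real.pi_pos]
    refine le_trans (le_of_eq ?_) h
    rw [mul_comm]
    congr 1
    refine Finset.sum_congr rfl fun k _ => ?_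
    have hk : (k : ℝ) + 1 ≠ 0 := by positivity
    have e : ‖b k‖ = ((k : ℝ) + 1) * ‖a (k + 1)‖ := by
      simp only [hb]
      rw [norm_mul]
      congr 1
      have : ((k : ℂ) + 1) = (((k : ℝ) + 1 : ℝ) : ℂ) := by push_cast; ring
      rw [this, Complex.norm_real, Real.norm_eq_abs, abs_of_pos (by positivity)]
    rw [e]
    field_simp
  have hS : Summable fun k : ℕ => ((k : ℝ) + 1) * ‖a (k + 1)‖ ^ 2 :=
    summable_of_sum_range_le (fun k => by positivity) hle
  rw [← summable_nat_add_iff 1]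
  refine Summable.of_nonneg_of_le (fun k => by positivity) (fun k => ?_) (hS.mul_left 2)
  have : 0 ≤ ‖a (k + 1)‖ ^ 2 := by positivity
  push_cast
  nlinarith [Nat.cast_nonneg (α := ℝ) k]

end Pool.Agent.Helper60.DZJ
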